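import Pool.Agent.T6.H74.SG.Dens

/-!
# The solutions of `a(n) = σ(n)` have natural density zero
-/

set_option autoImplicit false

namespace Pool.Agent.Results.MP_846857_nt.DensityZero

open Filter

/-- The function `a(n) = n τ(n) - ∑ d τ(d)`, the sum over the divisors `d < n` of `n`. -/
def a (n : ℕ) : ℤ :=
  (n : ℤ) * (n.divisors.card : ℤ) - ∑ d ∈ n.properDivisors, (d : ℤ) * (d.divisors.card : ℤ)

/-- The number of `n ≤ x` with `a(n) = σ(n)` is `o(x)`. -/
theorem result :
    Tendsto (fun x : ℕ =>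
      (((Finset.Icc 1 x).filter fun n : ℕ => a n = ((∑ d ∈ n.divisors, d : ℕ) : ℤ)).card : ℝ) / x)
      atTop (nhds 0) :=
  Pool.Agent.T6.H74.SG.dens

end Pool.Agent.Results.MP_846857_nt.DensityZero
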