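import Pool.Agent.T6.H74.SG.Par

/-!
# A 2-adic condition on the exponents of a solution of `a(n) = σ(n)`
-/

set_option autoImplicit false

namespace Pool.Agent.Results.MP_846857_nt.ExponentParity

/-- The function `a(n) = n τ(n) - ∑ d τ(d)`, the sum over the divisors `d < n` of `n`. -/
def a (n : ℕ) : ℤ :=
  (n : ℤ) * (n.divisors.card : ℤ) - ∑ d ∈ n.properDivisors, (d : ℤ) * (d.divisors.card : ℤ)

/-- If `a(n) = σ(n)` and `r` is the number of the odd primes whose exponent in `n` is odd, then
`2^r` divides the product, over the odd primes `p` whose exponent `e` in `n` is `2` or `3` modulo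
`4`, of the numbers `1 + 2 p + 3 p^2 + ... + (e + 1) p^e`. -/
theorem result (n : ℕ) (hn : n ≠ 0) (h : a n = ((∑ d ∈ n.divisors, d : ℕ) : ℤ)) :
    2 ^ (n.primeFactors.filter fun p => p ≠ 2 ∧ Odd (n.factorization p)).card ∣
      ∏ p ∈ n.primeFactors.filter
          (fun p => p ≠ 2 ∧ (n.factorization p % 4 = 2 ∨ n.factorization p % 4 = 3)),
        ∑ i ∈ Finset.range (n.factorization p + 1), (i + 1) * p ^ i :=
  Pool.Agent.T6.H74.SG.par hn h

end Pool.Agent.Results.MP_846857_nt.ExponentParity
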