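import Pool.Agent.T6.H74.SG.Tot

/-!
# A condition on the odd part of a solution of `a(n) = σ(n)`
-/

set_option autoImplicit false

namespace Pool.Agent.Results.MP_846857_nt.OddPartTotient

/-- The function `a(n) = n τ(n) - ∑ d τ(d)`, the sum over the divisors `d < n` of `n`. -/
def a (n : ℕ) : ℤ :=
  (n : ℤ) * (n.divisors.card : ℤ) - ∑ d ∈ n.properDivisors, (d : ℤ) * (d.divisors.card : ℤ)

/-- If `n = 2^k m` with `m > 1` odd and `a(n) = σ(n)`, then
`(k + 1) 2^(k+1) φ(m) < (k 2^(k+1) + 1) m`. -/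
theorem result (k m : ℕ) (hm : 1 < m) (hodd : Odd m)
    (h : a (2 ^ k * m) = ((∑ d ∈ (2 ^ k * m).divisors, d : ℕ) : ℤ)) :
    (k + 1) * 2 ^ (k + 1) * m.totient < (k * 2 ^ (k + 1) + 1) * m :=
  Pool.Agent.T6.H74.SG.tot_lt k m hm hodd h

end Pool.Agent.Results.MP_846857_nt.OddPartTotient
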