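import Pool.Agent.T6.H74.SG.Two

/-!
# The conjecture for the numbers with at most two distinct prime factors
-/

set_option autoImplicit false

namespace Pool.Agent.Results.MP_846857_nt.TwoPrimeFactors

/-- The function `a(n) = n τ(n) - ∑ d τ(d)`, the sum over the divisors `d < n` of `n`. -/
def a (n : ℕ) : ℤ :=
  (n : ℤ) * (n.divisors.card : ℤ) - ∑ d ∈ n.properDivisors, (d : ℤ) * (d.divisors.card : ℤ)

/-- For every `n ≥ 1` with at most two distinct prime factors, `a(n) = σ(n)` if and only if `n` is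
a power of `2`. -/
theorem result (n : ℕ) (hn : 0 < n) (hc : n.primeFactors.card ≤ 2) :
    a n = ((∑ d ∈ n.divisors, d : ℕ) : ℤ) ↔ ∃ k : ℕ, n = 2 ^ k :=
  Pool.Agent.T6.H74.SG.two_primes n hn hc

end Pool.Agent.Results.MP_846857_nt.TwoPrimeFactors
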